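import Pool.Agent.TH131.MTate.Main

/-!
# The motivic Tate conjecture and cubic hypersurfaces
-/

set_option autoImplicit false

open CategoryTheory AlgebraicGeometry

namespace Pool.Agent.Results.MP_bbcdf5_ag.CubicHypersurfaces

open Pool.Agent.TH90.Cub Pool.Agent.TH590.JH Pool.Agent.TH131.Semi Pool.Agent.TH131.MTate

universe v u

/-- **The motivic Tate conjecture and cubic hypersurfaces.** Let `ℓ` be a prime. The following are
equivalent:

* for all fields `k` finitely generated over `ℚ` and all motives `M` over `k`, every Galois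
  invariant vector of `M_ℓ` is a `ℚ_ℓ`-combination of motivic classes (of morphisms `ℚ(0) → M`);
* the same for `k = ℚ` and the motives `(Gr^W_{2m} H_c^j(C))(m)`, for all hypersurfaces `C` with an
  equation `g_0 t_0 + ⋯ + g_r t_r = 1` in the affine space over `ℚ` with the coordinates
  `x_1, …, x_n, t_0, …, t_r`, each `g_i` being of the form `x_a x_b - x_c`, `x_a + x_b - x_c` or
  `x_a - 1`, and all `j` and `m`.

If they hold, the same is true for the motives `(Gr^W_{2m} H_c^i(X))(m)` of all separated schemes `X`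
of finite type over `ℚ`. The hypersurfaces `C` are smooth over `ℚ`. -/
theorem result (ℓ : ℕ) [Fact ℓ.Prime] {𝓐 : Type u} [Category.{v} 𝓐] [Abelian 𝓐]
    (T : WeightTheory ℚ 𝓐) (𝓦 : Weights T.toTheory)
    (𝓡 : Pool.Agent.TH131.MTate.Realization T.toTheory 𝓦 ℓ (Field.absoluteGaloisGroup ℚ))
    (𝓥 : Motives 𝓡) :
    (𝓥.AllTate ↔ CubicsTate 𝓡) ∧
    (𝓥.AllTate → SchemesTate 𝓡) ∧
    CubicsSmooth ℚ := by
  have h := main_all T 𝓦 𝓡 𝓥
  exact ⟨h.1, h.2, cubicsSmooth ℚ⟩

end Pool.Agent.Results.MP_bbcdf5_ag.CubicHypersurfaces
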