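import Mathlib
import Pool.Agent.TH118.OR.Clos

/-!
# The motivic Tate conjecture for motives of even weight with a place with one cusp

Let `k` be a finitely generated field of characteristic zero, `M` a motive over `k` (for motivated or
for absolute Hodge cycles), pure of even weight `n` different from zero, with a polarization `φ`,
which is a symmetric form on `ω(M)`. Let `K` be the algebraic closure of `ℚ_ℓ`, `X = K ⊗ ω(M)` the étale
realization, `ρ` the action of the Galois group `Γ` of `k` on `X`, `χ` the `(-n)`-th power of the
cyclotomic character, `ω` the form on `X` given by `φ`, so that `ω(g u, g v) = χ(g) ω(u, v)`.  Let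
`𝒢` be the group of the `K`-valued points of the motivic Galois group `𝒢_k(M)`; it contains
`ρ(Γ)` and is contained in the group of the similitudes of `ω`.  The proper similitudes, the
products of scalars and of isometries of determinant one, are the identity component `GO°` of
the group `GO` of the similitudes; if the dimension of `X` is odd all similitudes are proper.

Theorem.  Suppose that `X` has dimension at least five and is irreducible for all open subgroups of
`Γ`, that some element of `Γ` has two eigenvalues whose quotient is not a root of unity
(`HasHyperbolic`; this always holds in this situation, as otherwise all elements of the Lie algebra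
of the image would have just one eigenvalue), and that there is an element `γ` of `Γ` (in
applications: of an inertia group), of finite order on `X`, with an eigenspace of codimension two,
for an eigenvalue `a` with `a ^ 2 = χ(γ)`, and with two other, different eigenvalues `α` and `β`,
`α β = χ(γ)` (`HasTwoSimple`).  Then `G_{ℓ,k}(M)`, and the same group for every finite extension of `k`,
contains all proper similitudes.  So

* `G_{ℓ,k}(M)` and `𝒢_k(M)` have the same identity component `GO°(ω(M), φ)`;
* if the rank of `M` is odd, Q1 holds for `M`: `G_{ℓ,k}(M) = 𝒢_k(M)_{ℚ_ℓ} = GO(ω(M), φ)`;
* if the rank is even, Q1 holds for `M` if `𝒢_k(M)` is connected.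

For absolute Hodge cycles the first statement is the motivic Mumford-Tate conjecture for `M` (by
`G_σ(M) = 𝒢_k(M)°`, see the problem).

Example.  Let `Y` be a smooth projective variety of even dimension `n > 0` over a number field (a
surface, or a hypersurface), `M` its primitive cohomology in degree `n` (or the orthogonal
complement of the classes of cycles), and let `v` be a place, not dividing `6 ℓ`, at which `Y` has a
regular model whose special fibre has exactly one singular point, given in the completion by
`x ^ 3 + x_1 ^ 2 + ⋯ + x_n ^ 2 = t`, `t` a uniformizer.  A generator of the tame inertia group at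
`v` has order three, with the simple eigenvalues `ζ` and `ζ ^ 2`, `ζ` of order three, and the
eigenvalue `1` on the orthogonal complement of the two vanishing classes.  So ONE such place is
enough.  (If there is one ordinary double point instead inertia acts through a reflection,
and the theorem that an irreducible infinite group which is generated by reflections
is dense in the orthogonal group can be used; here no element of `Γ` need act as a reflection.)
The Hodge numbers of `M` are arbitrary; the Mumford-Tate conjecture for `H ^ 2` is known
for surfaces with `p_g = 1` and other motives of abelian type.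

The proof.  Let `E` be the space of the functions on `Γ` that are polynomials of degree at most `D`
in the matrix entries of `ρ`, with the action by right translations, and let `𝔤` be the Lie algebra of
the operators `Y` on `X`, skew for `ω`, for which there is an operator `Y'` on `E` such that the
pair `(Y, Y')` is compatible with all equivariant multilinear maps from `X` to `E`.  Let `e` and `f` be
the eigenvectors for `α` and `β`, and `P` and `Q` the spaces of the vectors `p` in the large
eigenspace `X_a` with `e ∧ p`, or `f ∧ p`, in `𝔤`.  With the Jordan decomposition of the
hyperbolic element it is shown that `P + Q = X_a`.  If both are isotropic, the spaces `K f + P` and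
`K e + Q` are stable under `𝔤`, and all `𝔤`-stable subspaces contain one of them; so they are
permuted by `Γ`, a contradiction.  So `𝔤` contains `e ∧ p`, say, with `p` not isotropic.
Then `e ∧ [Y, e]` is in `𝔤` for all `Y` in `𝔤`, and from this, with three vectors of the orbit of `e`
in general position, it follows that `𝔤` is the orthogonal Lie algebra.  Finally the Zariski
closure contains the tori with the Lie algebras `K e' ∧ f'`, `e'` and `f'` isotropic, and the products of
two reflections are products of elements of such tori.
-/

namespace Pool.Agent.Results.MP_bbcdf5_ag.EvenWeightCusps

open Module Pool.Agent.W522.U Pool.Agent.TH118.ZC Pool.Agent.TH118.OR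

/-- **The Zariski closure contains all proper similitudes.** -/
theorem result {K : Type} [Field K] [CharZero K] [IsAlgClosed K]
    {X : Type} [AddCommGroup X] [Module K X] [FiniteDimensional K X]
    {Γ : Type} [Group Γ] (ρ : Representation K Γ X) (χ : Γ →* K)
    (ω : X →ₗ[K] X →ₗ[K] K) (hsymm : ∀ u v, ω u v = ω v u)
    (hnondeg : ∀ u, (∀ v, ω u v = 0) → u = 0)
    (hω : ∀ g u v, ω (ρ g u) (ρ g v) = χ g * ω u v) (hχ : (Set.range χ).Infinite)
    (hdim : 5 ≤ finrank K X) (hirr : SI ρ (⊤ : Submodule K X)) (htwo : HasTwoSimple ρ χ)
    (hhyp : HasHyperbolic ρ)
    {ι : Type} [Fintype ι] (b : Basis ι K X) (Δ : Subgroup Γ) (hΔ : Δ.FiniteIndex) :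
    properSimilitudes ω ⊆ zariskiClosure b (ρ '' Δ) ∧
      ∀ 𝒢 : Set (End K X), ρ '' Δ ⊆ 𝒢 → 𝒢 ⊆ similitudes ω →
        (Odd (finrank K X) ∨ 𝒢 ⊆ properSimilitudes ω) →
        zariskiClosure b (ρ '' Δ) = zariskiClosure b 𝒢 := by
  have h := closure_proper b hsymm hnondeg hω hχ hirr (Or.inr ⟨htwo, hdim, hhyp⟩) hΔ
  exact ⟨h, fun 𝒢 h1 h2 h3 => closure_eq' b hsymm hnondeg h h1 h2 h3⟩

end Pool.Agent.Results.MP_bbcdf5_ag.EvenWeightCusps
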