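import Pool.Agent.TH132.U.TMain

/-!
# MP_bbcdf5_ag: the motivic Tate conjecture for the motives generated by a variety and infinitely many others

Let `W` be a Weil cohomology theory for smooth projective varieties over a field `k` with functorial
actions of a group `Γ` on the cohomology algebras (in the intended use the `ℓ`-adic cohomology and the
Galois group of `k`), and let `S` be a system of spaces of classes stable under products and pull-backs
(in the intended use the linear combinations, with `ℓ`-adic coefficients, of the absolute Hodge classes
or of the motivated classes over `k`).

Let `𝓓` be a set of levels: either the set with the only member `Γ`, or the set of all subgroups of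
finite index. The Tate classes on `X` are the classes of degree `2 j` on which some member of `𝓓` acts
by `χ ^ j`. The motivic Tate conjecture for the motive of `X` says that the actions are semisimple and
that all Tate classes on all powers of `X` (for the level `Γ`) belong to `S`; for the subgroups of
finite index one gets the statement about the identity components (the motivic Mumford-Tate
conjecture).

Let `X i`, for `i` in an arbitrary (for instance infinite) set, be an **independent** family of
varieties: for every set `T` of indices the Tate classes on the products of members with index in `T`
by the products of members with index not in `T` split, and the actions on the products of the members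
are semisimple. For instance elliptic curves which are pairwise non-isogenous over the algebraic
closure (without complex multiplication if `𝓓 = {Γ}`).

Then for **every** variety `Z` such that the action on the cohomology of its powers is semisimple there
is a **finite** set `E₀` of indices such that for all disjoint sets `T` and `E` of indices with `T`
disjoint from `E₀`: all Tate classes on **all products** of copies of `Z` and of the `X i`,
`i ∈ T ∪ E`, belong to `S` if and only if this holds for all products of the `X i`, `i ∈ T`, and for
all products of copies of `Z` and of the `X i`, `i ∈ E`.

For elliptic curves the condition on `T` holds. So if the motivic Tate conjecture holds for the motive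
of `Z`, then it holds for the motives of all products of copies of `Z` and of elliptic curves outside
finitely many isogeny classes (`E = ∅`), and for all elliptic curves it reduces to `Z` and finitely
many of them (`E = E₀`).
-/

set_option autoImplicit false

open CategoryTheory AlgebraicGeometry

universe u w

namespace Pool.Agent.Results.MP_bbcdf5_ag.FinitelyManyFactors

open Pool.Agent.H914 VarClass Obj WeilCohomology Pool.Agent.TH132.U

/-- **The motivic Tate conjecture for the products of a variety and the members of an independent
family reduces to finitely many members.** -/
theorem result {k : Type u} [Field k] {𝒱 : VarClass k} {ops : CycleOps 𝒱}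
    {W : WeilCohomology.{u, 0} ops} {Γ : Type w} [Group Γ] {χ : Γ →* W.Kˣ}
    (𝓖 : GaloisActions W Γ χ) {𝓓 : Set (Subgroup Γ)} (h𝓓 : IsLevels 𝓓) {ι : Type}
    (X : ι → 𝒱.Obj) (hX : 𝓖.Independent 𝓓 X) (hXs : 𝓖.Semisimple 𝓓 (IsProd X Set.univ))
    (Z : 𝒱.Obj) (hZ : 𝓖.Semisimple 𝓓 (IsProd (fun _ : Unit => Z) Set.univ)) :
    ∃ E₀ : Finset ι, ∀ T E : Set ι, Disjoint T E₀ → Disjoint T E → ∀ S : Classes W,
      StableMul S → (𝓖.AllTateIn 𝓓 S (IsProd (adjoin Z X) (indices (T ∪ E))) ↔
        𝓖.AllTateIn 𝓓 S (IsProd X T) ∧ 𝓖.AllTateIn 𝓓 S (IsProd (adjoin Z X) (indices E))) :=
  tateIn_uniform 𝓖 h𝓓 X hX hXs Z hZ

end Pool.Agent.Results.MP_bbcdf5_ag.FinitelyManyFactors
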