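import Mathlib
import Pool.Agent.TH118.ZC.Main

/-!
# The motivic Tate conjecture for motives of odd weight with small finite inertia

Let `k` be a finitely generated field of characteristic zero, `M` a motive over `k` (for motivated or
for absolute Hodge cycles), pure of odd weight `n`, with a polarization `ψ`, which is an
alternating form on `ω(M)`. Let `K` be the algebraic closure of `ℚ_ℓ`, `X = K ⊗ ω(M)` the étale
realization, `ρ` the action of the Galois group `Γ` of `k` on `X`, `χ` the `(-n)`-th power of the
cyclotomic character, `ω` the form on `X` given by `ψ`, so that `ω(g u, g v) = χ(g) ω(u, v)`.  Let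
`𝒢` be the group of the `K`-valued points of the motivic Galois group `𝒢_k(M)`; it contains
`ρ(Γ)` and is contained in the group of the similitudes of `ω`.

Theorem.  Suppose that `X` is irreducible for all open subgroups of `Γ`, and that

* there is an element `γ` of `Γ` (in applications: of an inertia group), of finite order on `X`, not
  a scalar, with an eigenvalue `a`, `a ^ 2 = χ(γ)` (in applications `a = 1`), such that all
  other eigenvalues of `γ` are simple, and `c ^ 2 < 2 d`, where `d` is the dimension of the eigenspace
  for `a` and `c` is its codimension (`HasSmallInertia`);
* some element of `Γ` has two eigenvalues such that the quotient is not a root of unity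
  (`HasHyperbolic`; this always holds in this situation if `X` has dimension at least two,
  as otherwise all elements of the Lie algebra of the image would have just one eigenvalue).

Then `G_{ℓ,k}(M) = 𝒢_k(M)_{ℚ_ℓ}`, and both groups are the full group `GSp(ω(M), ψ)`.  The same holds for
all finite extensions of `k`, so `G_{ℓ,k}(M)` is connected, and as `𝒢_k(M)` is connected the
Mumford-Tate group is the same group for motives for absolute Hodge cycles.  In the theorem
the group `𝒢` is any set of endomorphisms between the image of `Γ`, or of a subgroup `Δ` of finite index,
and the group of similitudes; the conclusion is the equality of the Zariski closures.  With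
`𝒢 = GSp(X, ω)` it says that the image is Zariski dense in `GSp(X, ω)`.

Example.  Let `Y` be a smooth projective variety of odd dimension `n` over a number field (say a
hypersurface or a complete intersection), `M` its primitive cohomology in degree `n`, and let `v` be
a place at which `Y` has a regular model whose special fibre has exactly one singular point, given
in the completion by `x_0 ^ a_0 + ⋯ + x_n ^ a_n = t`, `t` a uniformizer, such that the numbers
`ζ_0 ^ j_0 ⋯ ζ_n ^ j_n`, `0 < j_i < a_i`, `ζ_i` of order `a_i`, are pairwise different and different
from `1` (the `a_i` prime to the residue characteristic).  This holds for the singularities `A_{2m}`,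
`E_6`, `E_8` and for all `x ^ p + y ^ q + z_1 ^ 2 + ⋯ + z_{n-1} ^ 2` with `p`, `q` coprime,
with the Milnor number `μ = (p - 1) (q - 1)`.  A generator of the tame inertia group at `v` has
finite order and these eigenvalues, on a subspace of dimension `μ`, and `1` on a complement.  So if
`X` is strongly irreducible and of dimension greater than `μ + μ ^ 2 / 2` the theorem applies.

The proof.  Let `E` be the space of the functions on `Γ` that are polynomials of degree at most `D`
in the matrix entries of `ρ`, with the action by right translations, and let `𝔤` be the Lie algebra of
the operators `Y` on `X`, skew for `ω`, for which there is an operator `Y'` on `E` such that the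
pair `(Y, Y')` is compatible with all equivariant multilinear maps from `X` to `E`.  The Jordan
decomposition of the hyperbolic element on `X` and `E` gives such a pair, where `Y` is not a scalar,
though perhaps not skew; its components for the conjugation by `γ` are skew if the eigenvalue
is not one. Then the argument for the theorem on small inertia (`MP_021685_ag.SmallCodimension`),
which only uses that `𝔤` is a Lie algebra normalized by `Γ`, shows that `𝔤` is the symplectic Lie
algebra. If `N ^ 2 = 0` the relations in `E` between the values of the equivariant maps are preserved
by `1 + t N` (a linear differential equation), so that a polynomial which vanishes on `Γ` vanishes on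
`g (1 + t N)` for all `g` in `Γ`.  Hence the Zariski closure contains all transvections.
-/

namespace Pool.Agent.Results.MP_bbcdf5_ag.SmallInertiaMonodromy

open Module Pool.Agent.W522.U Pool.Agent.TH118.SC Pool.Agent.TH118.ZC

/-- **The image is Zariski dense in the group of similitudes.** -/
theorem result {K : Type} [Field K] [CharZero K] [IsAlgClosed K]
    {X : Type} [AddCommGroup X] [Module K X] [FiniteDimensional K X]
    {Γ : Type} [Group Γ] (ρ : Representation K Γ X) (χ : Γ →* K)
    (ω : X →ₗ[K] X →ₗ[K] K) (halt : ∀ v, ω v v = 0) (hnondeg : ∀ u, (∀ v, ω u v = 0) → u = 0)
    (hω : ∀ g u v, ω (ρ g u) (ρ g v) = χ g * ω u v) (hχ : (Set.range χ).Infinite)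
    (hirr : SI ρ (⊤ : Submodule K X)) (hin : HasSmallInertia ρ χ) (hhyp : HasHyperbolic ρ)
    {ι : Type} [Fintype ι] (b : Basis ι K X) (Δ : Subgroup Γ) (hΔ : Δ.FiniteIndex)
    (𝒢 : Set (End K X)) (h1 : ρ '' Δ ⊆ 𝒢) (h2 : 𝒢 ⊆ similitudes ω) :
    zariskiClosure b (ρ '' Δ) = zariskiClosure b 𝒢 :=
  small_closure b halt hnondeg hω hχ hirr hin hhyp hΔ h1 h2

end Pool.Agent.Results.MP_bbcdf5_ag.SmallInertiaMonodromy
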